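import Pool.Agent.K4H87.BE.Final

/-!
# The asymptotic regularity of the initial ideal of a binomial edge ideal can exceed the largest
length of an admissible path

Problem MP_641f76_ag, Q2. For the connected labelled graph `G8` on eight vertices with the edges
`12, 17, 18, 28, 35, 36, 37, 46, 68` the largest admissible path has four vertices, but
`reg (in(J_G)^(2k)) ≥ 9 k` for every `k`, so that `lim reg (in(J_G)^(m)) / m` is at least `9/2`.
-/

namespace Pool.Agent.Results.MP_641f76_ag.InitialIdealRegularity

open Pool.K4H87.BE Filter

/-- The labelled graph `G8` has an edge, its largest admissible path has four vertices, and for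
every field `K` the initial ideal of its binomial edge ideal satisfies
`reg (in(J_G)^(2k)) ≥ 9 k` for all `k`; so every limit of `reg (in(J_G)^(m)) / m` is at least
`9/2` and different from the largest length `ellLt G8 = 4` of an admissible path. -/
theorem result :
    (∃ i j, G8.Adj i j) ∧ ellLt G8 = 4 ∧
    ∀ (K : Type) [Field K],
      (∀ k : ℕ, ((9 * k : ℕ) : ℕ∞) ≤
        regularity (symbPow (initialIdeal (edgeIdeal K G8)) (2 * k))) ∧
      ∀ L : ENNReal,
        Tendsto (fun m : ℕ =>
          ((regularity (symbPow (initialIdeal (edgeIdeal K G8)) m) : ℕ∞) : ENNReal) /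
            (m : ENNReal)) atTop (nhds L) →
        9 / 2 ≤ L ∧ L ≠ ((ellLt G8 : ℕ) : ENNReal) :=
  ⟨⟨0, 1, by decide⟩, ellLt_G8, fun K _ => ⟨fun k => reg_ge K k, fun L hL => limit_ne K L hL⟩⟩

end Pool.Agent.Results.MP_641f76_ag.InitialIdealRegularity
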